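import Mathlib
import Pool.Agent.Lib.MP_eefcda_al.GraphModel

namespace Pool.Agent.Results.MP_eefcda_al.FinitelyGeneratedCP

open Pool.Agent.Lib.MP_eefcda_al

/-- There is a monoid `M` with at least two elements, with a function `sig : M → M → M` and
elements `p₁, p₂` satisfying the three axioms of a categorical quasiproduct monoid and also the
extra axiom `sig p₁ p₂ = 1` of a categorical product monoid, which is finitely generated as a
monoid. -/
theorem result :
    ∃ (M : Type) (_ : Monoid M) (sig : M → M → M) (p₁ p₂ : M),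
      (∀ a b : M, p₁ * sig a b = a) ∧
      (∀ a b : M, p₂ * sig a b = b) ∧
      (∀ a b c : M, sig a b * c = sig (a * c) (b * c)) ∧
      sig p₁ p₂ = 1 ∧
      Nontrivial M ∧
      ∃ G : Set M, G.Finite ∧ Submonoid.closure G = ⊤ := by
  refine ⟨N, inferInstance, sig, p₁, p₂, p₁_sig, p₂_sig, sig_mul, sig_p, ⟨p₁, 1, p₁_ne_one⟩, ?_⟩
  obtain ⟨S, hS⟩ := (Monoid.fg_def.1 fg_N)
  exact ⟨S, S.finite_toSet, hS⟩

end Pool.Agent.Results.MP_eefcda_al.FinitelyGeneratedCP
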